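import Pool.Agent.H1.Vote

open Pool.Agent.H1.Vote

theorem Pool.Agent.Results.MP_bedf46_an.Yes.result :
    ∃ s : V → Bool, IsAttractor s ∧ ¬ FinPert s (fun _ => false) ∧ ¬ FinPert s (fun _ => true) ∧
      (∀ (t : ℕ) (c : Bool), ¬ FinPert (F^[t] s) (fun _ => c)) ∧
      (∀ (v : V) (c : Bool) (T : ℕ), ∃ t ≥ T, F^[t] s v = c) :=
  ⟨s0, s0_attr, not_bunch false 0, not_bunch true 0, fun t c => not_bunch c t,
    fun v c T => s0_osc c v T⟩
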